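import Pool.Agent.W8.ST.Stm

set_option autoImplicit false

namespace Pool.Agent.W370.ST.ABS

section
variable {E : Type} [AddCommGroup E] [Module ℝ E]

/-- rank-nullity on a submodule -/
theorem rk (T : E →ₗ[ℝ] E) (A : Submodule ℝ E) :
    Module.rank ℝ A = Module.rank ℝ (A ⊓ LinearMap.ker T : Submodule ℝ E) +
      Module.rank ℝ (A.map T) := by
  have h := LinearMap.rank_range_add_rank_ker (T.domRestrict A)
  have h1 : LinearMap.range (T.domRestrict A) = A.map T := by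
    ext x
    constructor
    · rintro ⟨y, rfl⟩
      exact ⟨y.1, y.2, rfl⟩
    · rintro ⟨y, hy, rfl⟩
      exact ⟨⟨y, hy⟩, rfl⟩
  have h2 : Module.rank ℝ (LinearMap.ker (T.domRestrict A)) =
      Module.rank ℝ (A ⊓ LinearMap.ker T : Submodule ℝ E) := by
    have e : (LinearMap.ker (T.domRestrict A)).map A.subtype = A ⊓ LinearMap.ker T := by
      ext x
      constructor
      · rintro ⟨y, hy, rfl⟩
        exact ⟨y.2, hy⟩
      · rintro ⟨hx, hx2⟩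
        exact ⟨⟨x, hx⟩, hx2, rfl⟩
    rw [← e]
    exact ((LinearMap.ker (T.domRestrict A)).equivMapOfInjective A.subtype
      Subtype.val_injective).rank_eq
  rw [← h2, ← h1, add_comm]
  exact h.symm

theorem rk_map_map (T : E →ₗ[ℝ] E) (hT : ∀ v, T (T v) = 0 → T v = 0) (A : Submodule ℝ E) :
    Module.rank ℝ ((A.map T).map T) = Module.rank ℝ (A.map T) := by
  have h := rk T (A.map T)
  have h1 : (A.map T ⊓ LinearMap.ker T : Submodule ℝ E) = ⊥ := by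
    rw [eq_bot_iff]
    rintro x ⟨⟨y, hy, rfl⟩, hx⟩
    exact (Submodule.mem_bot ℝ).mpr (hT y hx)
  rw [h1, rank_bot, zero_add] at h
  exact h.symm

/-- the fixed vectors -/
def fx (I : E →ₗ[ℝ] E) : Submodule ℝ E := LinearMap.eqLocus I LinearMap.id

theorem mem_fx (I : E →ₗ[ℝ] E) (v : E) : v ∈ fx I ↔ I v = v := Iff.rfl

/-- the antifixed vectors -/
def an (I : E →ₗ[ℝ] E) : Submodule ℝ E := LinearMap.eqLocus I (-LinearMap.id)

theorem mem_an (I : E →ₗ[ℝ] E) (v : E) : v ∈ an I ↔ I v = -v := Iff.rfl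

theorem half (T I : E →ₗ[ℝ] E) (hT : ∀ v, T (T v) = 0 → T v = 0) (hI : ∀ v, I (I v) = v)
    (hTI : ∀ v, I (T v) = - T (I v)) (X : Submodule ℝ E) (hXT : ∀ v ∈ X, T v ∈ X)
    (hXI : ∀ v ∈ X, I v ∈ X) :
    Module.rank ℝ ((X ⊓ fx I).map T) + Module.rank ℝ ((X ⊓ fx I).map T) =
      Module.rank ℝ (X.map T) := by
  have a1 : (X ⊓ fx I).map T ≤ X ⊓ an I := by
    rintro x ⟨y, ⟨hy, hy2⟩, rfl⟩
    refine ⟨hXT y hy, ?_⟩
    rw [SetLike.mem_coe, mem_an, hTI, (mem_fx I y).mp hy2]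
  have a2 : (X ⊓ an I).map T ≤ X ⊓ fx I := by
    rintro x ⟨y, ⟨hy, hy2⟩, rfl⟩
    refine ⟨hXT y hy, ?_⟩
    rw [SetLike.mem_coe, mem_fx, hTI, (mem_an I y).mp hy2, map_neg, neg_neg]
  have b1 : Module.rank ℝ ((X ⊓ fx I).map T) ≤ Module.rank ℝ ((X ⊓ an I).map T) := by
    rw [← rk_map_map T hT (X ⊓ fx I)]
    exact Submodule.rank_mono (Submodule.map_mono a1)
  have b2 : Module.rank ℝ ((X ⊓ an I).map T) ≤ Module.rank ℝ ((X ⊓ fx I).map T) := by
    rw [← rk_map_map T hT (X ⊓ an I)]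
    exact Submodule.rank_mono (Submodule.map_mono a2)
  have b := le_antisymm b1 b2
  have c : ((X ⊓ fx I).map T) ⊓ ((X ⊓ an I).map T) = ⊥ := by
    rw [eq_bot_iff]
    rintro x ⟨h1, h2⟩
    have h3 : I x = -x := (a1 h1).2
    have h4 : I x = x := (a2 h2).2
    rw [Submodule.mem_bot]
    rw [h4] at h3
    have h5 : (2 : ℝ) • x = 0 := by
      rw [two_smul]
      nth_rewrite 1 [h3]
      simp
    exact (smul_eq_zero.mp h5).resolve_left (by norm_num)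
  have d : ((X ⊓ fx I).map T) ⊔ ((X ⊓ an I).map T) = X.map T := by
    rw [← Submodule.map_sup]
    congr 1
    apply le_antisymm (sup_le inf_le_left inf_le_left)
    intro v hv
    have e1 : v = (1 / 2 : ℝ) • (v + I v) + (1 / 2 : ℝ) • (v - I v) := by
      rw [← smul_add]
      have : v + I v + (v - I v) = (2 : ℝ) • v := by
        rw [two_smul]
        abel
      rw [this, smul_smul]
      norm_num
    rw [e1]
    apply Submodule.add_mem_sup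
    · refine ⟨X.smul_mem _ (X.add_mem hv (hXI v hv)), ?_⟩
      rw [SetLike.mem_coe, mem_fx, map_smul, map_add, hI, add_comm]
    · refine ⟨X.smul_mem _ (X.sub_mem hv (hXI v hv)), ?_⟩
      rw [SetLike.mem_coe, mem_an, map_smul, map_sub, hI, ← smul_neg, neg_sub]
  have e := Submodule.rank_sup_add_rank_inf_eq ((X ⊓ fx I).map T) ((X ⊓ an I).map T)
  rw [c, d, rank_bot, add_zero, ← b] at e
  exact e.symm

theorem half_inj {a b : Cardinal.{0}} (h : a + a = b + b) : a = b := by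
  rcases lt_or_ge a Cardinal.aleph0 with ha | ha
  · have h1 : b + b < Cardinal.aleph0 := by
      rw [← h]
      exact Cardinal.add_lt_aleph0 ha ha
    have hb : b < Cardinal.aleph0 := lt_of_le_of_lt (self_le_add_right b b) h1
    obtain ⟨m, rfl⟩ := Cardinal.lt_aleph0.mp ha
    obtain ⟨l, rfl⟩ := Cardinal.lt_aleph0.mp hb
    norm_cast at h ⊢
    omega
  · have h1 : Cardinal.aleph0 ≤ b := by
      by_contra hb
      push Not at hb
      have h2 := Cardinal.add_lt_aleph0 hb hb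
      rw [← h] at h2
      exact absurd (lt_of_le_of_lt (self_le_add_right a a) h2) (not_lt.mpr ha)
    rw [Cardinal.add_eq_self ha, Cardinal.add_eq_self h1] at h
    exact h

theorem step3 (D0 D1 D2 I : E →ₗ[ℝ] E) (h01 : ∀ v, D0 (D1 v) = D1 (D0 v))
    (h02 : ∀ v, D0 (D2 v) = D2 (D0 v)) (hD0 : ∀ v, D0 (D0 v) = 0 → D0 v = 0)
    (hI : ∀ v, I (D0 (D0 v)) = D0 (D0 (I v))) :
    Module.rank ℝ (((LinearMap.ker D2 ⊓ LinearMap.ker (D0 ∘ₗ D1)) ⊓ fx I).map D0) =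
      Module.rank ℝ (((LinearMap.ker D1 ⊓ LinearMap.ker D2) ⊓ fx I).map D0) := by
  apply le_antisymm
  · rw [← rk_map_map D0 hD0, ← rk_map_map D0 hD0]
    apply Submodule.rank_mono
    apply Submodule.map_mono
    rintro x ⟨_, ⟨v, ⟨⟨hv2, hv01⟩, hvI⟩, rfl⟩, rfl⟩
    have g2 : D2 v = 0 := hv2
    have g01 : D0 (D1 v) = 0 := hv01
    have gI : I v = v := hvI
    refine ⟨⟨?_, ?_⟩, ?_⟩
    · show D1 (D0 (D0 v)) = 0
      rw [← h01, ← h01, g01, map_zero]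
    · show D2 (D0 (D0 v)) = 0
      rw [← h02, ← h02, g2, map_zero, map_zero]
    · show I (D0 (D0 v)) = D0 (D0 v)
      rw [hI, gI]
  · apply Submodule.rank_mono
    apply Submodule.map_mono
    rintro v ⟨⟨hv1, hv2⟩, hvI⟩
    have g1 : D1 v = 0 := hv1
    refine ⟨⟨hv2, ?_⟩, hvI⟩
    show D0 (D1 v) = 0
    rw [g1, map_zero]

/-- all the parts for one involution -/
theorem total (D0 D1 D2 I : E →ₗ[ℝ] E) (h01 : ∀ v, D0 (D1 v) = D1 (D0 v))
    (h02 : ∀ v, D0 (D2 v) = D2 (D0 v)) (hD0 : ∀ v, D0 (D0 v) = 0 → D0 v = 0)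
    (hI : ∀ v, I (D0 (D0 v)) = D0 (D0 (I v))) :
    Module.rank ℝ (fx I) =
      Module.rank ℝ ((LinearMap.ker D0 ⊓ LinearMap.ker D2) ⊓ (fx I ⊓ LinearMap.ker D1) :
        Submodule ℝ E) +
      Module.rank ℝ (((LinearMap.ker D0 ⊓ LinearMap.ker D2) ⊓ fx I).map D1) +
      Module.rank ℝ (((LinearMap.ker D1 ⊓ LinearMap.ker D2) ⊓ fx I).map D0) +
      Module.rank ℝ ((LinearMap.ker D2 ⊓ fx I).map (D0 ∘ₗ D1)) +
      Module.rank ℝ (((⊤ : Submodule ℝ E) ⊓ fx I).map D2) := by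
  have s1 := rk D2 (fx I)
  have s2 := rk (D0 ∘ₗ D1) (fx I ⊓ LinearMap.ker D2)
  have s3 := rk D0 ((fx I ⊓ LinearMap.ker D2) ⊓ LinearMap.ker (D0 ∘ₗ D1))
  have s4 := rk D1 (((fx I ⊓ LinearMap.ker D2) ⊓ LinearMap.ker (D0 ∘ₗ D1)) ⊓ LinearMap.ker D0)
  have s5 := step3 D0 D1 D2 I h01 h02 hD0 hI
  have e1 : (fx I ⊓ LinearMap.ker D2) = LinearMap.ker D2 ⊓ fx I := inf_comm _ _
  have e2 : ((fx I ⊓ LinearMap.ker D2) ⊓ LinearMap.ker (D0 ∘ₗ D1)) =
      (LinearMap.ker D2 ⊓ LinearMap.ker (D0 ∘ₗ D1)) ⊓ fx I := by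
    rw [inf_assoc, inf_comm]
  have e3 : (((fx I ⊓ LinearMap.ker D2) ⊓ LinearMap.ker (D0 ∘ₗ D1)) ⊓ LinearMap.ker D0) =
      (LinearMap.ker D0 ⊓ LinearMap.ker D2) ⊓ fx I := by
    ext v
    constructor
    · rintro ⟨⟨⟨q1, q2⟩, _⟩, q4⟩
      exact ⟨⟨q4, q2⟩, q1⟩
    · rintro ⟨⟨q4, q2⟩, q1⟩
      refine ⟨⟨⟨q1, q2⟩, ?_⟩, q4⟩
      show D0 (D1 v) = 0
      have : D0 v = 0 := q4
      rw [h01, this, map_zero]
  have e4 : (⊤ : Submodule ℝ E) ⊓ fx I = fx I := top_inf_eq _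
  rw [e4]
  rw [s1, s2, s3, s4, e3, e2, e1, s5, inf_assoc]

/-- transport of ranks by an equivalence -/
theorem transport (A B X Y : Submodule ℝ E) (J : B ≃ₗ[ℝ] A)
    (hXY : ∀ v : B, (v : E) ∈ X ↔ (J v : E) ∈ Y) :
    ∃ e : ↥(B ⊓ X) ≃ₗ[ℝ] ↥(A ⊓ Y), ∀ v : ↥(B ⊓ X), (e v : E) = J ⟨v.1, v.2.1⟩ := by
  refine ⟨{ toFun := fun v => ⟨J ⟨v.1, v.2.1⟩, (J ⟨v.1, v.2.1⟩).2, (hXY ⟨v.1, v.2.1⟩).mp v.2.2⟩
            map_add' := ?_
            map_smul' := ?_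
            invFun := fun u => ⟨J.symm ⟨u.1, u.2.1⟩, (J.symm ⟨u.1, u.2.1⟩).2, ?_⟩
            left_inv := ?_
            right_inv := ?_ }, ?_⟩
  · intro x y
    apply Subtype.ext
    have : (⟨(x + y).1, (x + y).2.1⟩ : B) = ⟨x.1, x.2.1⟩ + ⟨y.1, y.2.1⟩ := rfl
    show (J ⟨(x + y).1, (x + y).2.1⟩ : E) = (J ⟨x.1, x.2.1⟩ : E) + (J ⟨y.1, y.2.1⟩ : E)
    rw [this, map_add]
    rfl
  · intro c x
    apply Subtype.ext
    have : (⟨(c • x).1, (c • x).2.1⟩ : B) = c • ⟨x.1, x.2.1⟩ := rfl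
    show (J ⟨(c • x).1, (c • x).2.1⟩ : E) = c • (J ⟨x.1, x.2.1⟩ : E)
    rw [this, map_smul]
    rfl
  · rw [SetLike.mem_coe, hXY, LinearEquiv.apply_symm_apply]
    exact u.2.2
  · intro v
    apply Subtype.ext
    show (J.symm (J ⟨v.1, v.2.1⟩) : E) = v
    rw [LinearEquiv.symm_apply_apply]
  · intro u
    apply Subtype.ext
    show (J (J.symm ⟨u.1, u.2.1⟩) : E) = u
    rw [LinearEquiv.apply_symm_apply]
  · intro v
    rfl

theorem tr_rank (A B X Y : Submodule ℝ E) (J : B ≃ₗ[ℝ] A)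
    (hXY : ∀ v : B, (v : E) ∈ X ↔ (J v : E) ∈ Y) :
    Module.rank ℝ (B ⊓ X : Submodule ℝ E) = Module.rank ℝ (A ⊓ Y : Submodule ℝ E) := by
  obtain ⟨e, -⟩ := transport A B X Y J hXY
  exact e.rank_eq

theorem tr_map (A B X Y : Submodule ℝ E) (J : B ≃ₗ[ℝ] A)
    (hXY : ∀ v : B, (v : E) ∈ X ↔ (J v : E) ∈ Y) (f g : E →ₗ[ℝ] E)
    (hfg : ∀ v : B, f v = 0 ↔ g (J v) = 0) :
    Module.rank ℝ ((B ⊓ X).map f) = Module.rank ℝ ((A ⊓ Y).map g) := by
  obtain ⟨e, he⟩ := transport A B X Y J hXY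
  have r1 : LinearMap.range (f ∘ₗ (B ⊓ X).subtype) = (B ⊓ X).map f := by
    rw [LinearMap.range_comp, Submodule.range_subtype]
  have r2 : LinearMap.range ((g ∘ₗ (A ⊓ Y).subtype) ∘ₗ e.toLinearMap) = (A ⊓ Y).map g := by
    rw [LinearMap.range_comp, LinearEquiv.range, Submodule.map_top, LinearMap.range_comp,
      Submodule.range_subtype]
  have k : LinearMap.ker (f ∘ₗ (B ⊓ X).subtype) =
      LinearMap.ker ((g ∘ₗ (A ⊓ Y).subtype) ∘ₗ e.toLinearMap) := by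
    ext v
    rw [LinearMap.mem_ker, LinearMap.mem_ker]
    show f (v : E) = 0 ↔ g (e v : E) = 0
    rw [he v]
    exact hfg ⟨v.1, v.2.1⟩
  rw [← r1, ← r2]
  exact (((f ∘ₗ (B ⊓ X).subtype).quotKerEquivRange.symm.trans
    (Submodule.quotEquivOfEq _ _ k)).trans
      ((g ∘ₗ (A ⊓ Y).subtype) ∘ₗ e.toLinearMap).quotKerEquivRange).rank_eq

end

theorem Abs_proof : Pool.Agent.W8.ST.Abs := by
  intro E _ _ D I1 I2 hc hn h11 h22 a0 a1 a2 b0 b1 b2 J j1 j2 j3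
  show Module.rank ℝ (fx I1) = Module.rank ℝ (fx I2)
  have h01 : ∀ v, D 0 (D 1 v) = D 1 (D 0 v) := hc 0 1
  have h02 : ∀ v, D 0 (D 2 v) = D 2 (D 0 v) := hc 0 2
  have h12 : ∀ v, D 1 (D 2 v) = D 2 (D 1 v) := hc 1 2
  have t1 := total (D 0) (D 1) (D 2) I1 h01 h02 (hn 0) (by
    intro v
    rw [a0, a0, map_neg, neg_neg])
  have t2 := total (D 0) (D 1) (D 2) I2 h01 h02 (hn 0) (by
    intro v
    rw [b0, b0])
  -- the part of `D 2`
  have p1 := half (D 2) I1 (hn 2) h11 a2 ⊤ (fun v _ => Submodule.mem_top) (fun v _ => Submodule.mem_top)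
  have p2 := half (D 2) I2 (hn 2) h22 b2 ⊤ (fun v _ => Submodule.mem_top) (fun v _ => Submodule.mem_top)
  have p := half_inj (p1.trans p2.symm)
  -- the part of `D 0 D 1`
  have hTT : ∀ v, (D 0 ∘ₗ D 1) ((D 0 ∘ₗ D 1) v) = 0 → (D 0 ∘ₗ D 1) v = 0 := by
    intro v hv
    have hv' : D 0 (D 1 (D 0 (D 1 v))) = 0 := hv
    show D 0 (D 1 v) = 0
    rw [← h01 (D 1 v)] at hv'
    have h3 := hn 0 _ hv'
    rw [h01, h01] at h3
    have h4 := hn 1 _ h3
    rw [h01]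
    exact h4
  have hXT : ∀ v ∈ LinearMap.ker (D 2), (D 0 ∘ₗ D 1) v ∈ LinearMap.ker (D 2) := by
    intro v hv
    have g : D 2 v = 0 := hv
    show D 2 (D 0 (D 1 v)) = 0
    rw [← h02, ← h12, g, map_zero, map_zero]
  have q1 := half (D 0 ∘ₗ D 1) I1 hTT h11 (by
    intro v
    show I1 (D 0 (D 1 v)) = -(D 0 (D 1 (I1 v)))
    rw [a0, a1]) (LinearMap.ker (D 2)) hXT (by
    intro v hv
    have g : D 2 v = 0 := hv
    show D 2 (I1 v) = 0
    have := a2 v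
    rw [g, map_zero] at this
    rw [← neg_eq_zero, ← this])
  have q2 := half (D 0 ∘ₗ D 1) I2 hTT h22 (by
    intro v
    show I2 (D 0 (D 1 v)) = -(D 0 (D 1 (I2 v)))
    rw [b0, b1, map_neg]) (LinearMap.ker (D 2)) hXT (by
    intro v hv
    have g : D 2 v = 0 := hv
    show D 2 (I2 v) = 0
    have := b2 v
    rw [g, map_zero] at this
    rw [← neg_eq_zero, ← this])
  have q := half_inj (q1.trans q2.symm)
  -- the fixed vectors
  have z2 : ∀ (v : (LinearMap.ker (D 0) ⊓ LinearMap.ker (D 2) : Submodule ℝ E)),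
      (I2 v : E) ∈ (LinearMap.ker (D 0) ⊓ LinearMap.ker (D 2) : Submodule ℝ E) := by
    intro v
    have g0 : D 0 (v : E) = 0 := v.2.1
    have g2 : D 2 (v : E) = 0 := v.2.2
    constructor
    · show D 0 (I2 v) = 0
      rw [← b0, g0, map_zero]
    · show D 2 (I2 v) = 0
      have := b2 (v : E)
      rw [g2, map_zero] at this
      rw [← neg_eq_zero, ← this]
  have z1 : ∀ (v : (LinearMap.ker (D 0) ⊓ LinearMap.ker (D 2) : Submodule ℝ E)),
      (I1 v : E) ∈ (LinearMap.ker (D 0) ⊓ LinearMap.ker (D 2) : Submodule ℝ E) := by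
    intro v
    have g0 : D 0 (v : E) = 0 := v.2.1
    have g2 : D 2 (v : E) = 0 := v.2.2
    constructor
    · show D 0 (I1 v) = 0
      have := a0 (v : E)
      rw [g0, map_zero] at this
      rw [← neg_eq_zero, ← this]
    · show D 2 (I1 v) = 0
      have := a2 (v : E)
      rw [g2, map_zero] at this
      rw [← neg_eq_zero, ← this]
  have f12 : ∀ v : (LinearMap.ker (D 0) ⊓ LinearMap.ker (D 2) : Submodule ℝ E),
      (v : E) ∈ fx I1 ↔ (J v : E) ∈ fx I2 := by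
    intro v
    rw [mem_fx, mem_fx]
    have h := j2 v ⟨I1 v, z1 v⟩ rfl
    constructor
    · intro h1
      have e : (⟨I1 v, z1 v⟩ : (LinearMap.ker (D 0) ⊓ LinearMap.ker (D 2) : Submodule ℝ E)) = v :=
        Subtype.ext h1
      rw [e] at h
      exact h.symm
    · intro h1
      rw [h1] at h
      have e := J.injective (Subtype.ext h)
      exact congrArg Subtype.val e
  have f21 : ∀ v : (LinearMap.ker (D 0) ⊓ LinearMap.ker (D 2) : Submodule ℝ E),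
      (v : E) ∈ fx I2 ↔ (J v : E) ∈ fx I1 := by
    intro v
    rw [mem_fx, mem_fx]
    have h := j3 v ⟨I2 v, z2 v⟩ rfl
    constructor
    · intro h1
      have e : (⟨I2 v, z2 v⟩ : (LinearMap.ker (D 0) ⊓ LinearMap.ker (D 2) : Submodule ℝ E)) = v :=
        Subtype.ext h1
      rw [e] at h
      exact h.symm
    · intro h1
      rw [h1] at h
      have e := J.injective (Subtype.ext h)
      exact congrArg Subtype.val e
  have w1 : Module.rank ℝ ((LinearMap.ker (D 0) ⊓ LinearMap.ker (D 2)) ⊓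
        (fx I1 ⊓ LinearMap.ker (D 1)) : Submodule ℝ E) =
      Module.rank ℝ ((LinearMap.ker (D 0) ⊓ LinearMap.ker (D 2)) ⊓
        (fx I2 ⊓ LinearMap.ker (D 1)) : Submodule ℝ E) := by
    have e : ((LinearMap.ker (D 0) ⊓ LinearMap.ker (D 2)) ⊓
        (fx I2 ⊓ LinearMap.ker (D 1)) : Submodule ℝ E) =
        (LinearMap.ker (D 1) ⊓ LinearMap.ker (D 2)) ⊓ (fx I2 ⊓ LinearMap.ker (D 0)) := by
      ext v
      constructor
      · rintro ⟨⟨u1, u2⟩, u3, u4⟩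
        exact ⟨⟨u4, u2⟩, u3, u1⟩
      · rintro ⟨⟨u1, u2⟩, u3, u4⟩
        exact ⟨⟨u4, u2⟩, u3, u1⟩
    rw [e]
    apply tr_rank _ _ _ _ J
    intro v
    constructor
    · rintro ⟨u1, u2⟩
      exact ⟨(f12 v).mp u1, (j1 v).mp u2⟩
    · rintro ⟨u1, u2⟩
      exact ⟨(f12 v).mpr u1, (j1 v).mpr u2⟩
  have w2 : Module.rank ℝ (((LinearMap.ker (D 0) ⊓ LinearMap.ker (D 2)) ⊓ fx I1).map (D 1)) =
      Module.rank ℝ (((LinearMap.ker (D 1) ⊓ LinearMap.ker (D 2)) ⊓ fx I2).map (D 0)) :=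
    tr_map _ _ _ _ J f12 _ _ j1
  have w3 : Module.rank ℝ (((LinearMap.ker (D 0) ⊓ LinearMap.ker (D 2)) ⊓ fx I2).map (D 1)) =
      Module.rank ℝ (((LinearMap.ker (D 1) ⊓ LinearMap.ker (D 2)) ⊓ fx I1).map (D 0)) :=
    tr_map _ _ _ _ J f21 _ _ j1
  rw [t1, t2, w1, w2, w3, p, q]
  congr 2
  rw [add_assoc, add_assoc]
  congr 1
  exact add_comm _ _

end Pool.Agent.W370.ST.ABS
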